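import Mathlib
import Pool.Agent.H44.SQM.Base
import Pool.Agent.H44.SQM.FIN

/-!
Two closed connected 3-manifolds `A`, `B` (also 3-dimensional polyhedra) which fibre over
the circle and are not homotopy equivalent, such that `A × A` and `B × B` are homeomorphic.
-/

set_option autoImplicit false

namespace Pool.Agent.Results.MP_2cc909_gt.SquareRoots

open Pool.Agent.H44.SQM

/-- There are a closed connected surface `F` and a homeomorphism `h` of `F` with `h ^ 5 = 1` such
that the mapping tori `A = MT h` and `B = MT (h ^ 2)` are closed connected 3-manifolds and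
3-dimensional polyhedra, both have a map to the circle which is not null homotopic,
`A × A` is homeomorphic to `B × B`, but `A` and `B` are not homotopy equivalent (so they
are not homeomorphic). -/
theorem result :
    ∃ (F : Type) (_ : TopologicalSpace F) (h : F ≃ₜ F),
      IsClosedManifold 2 F ∧ ConnectedSpace F ∧ h ^ 5 = 1 ∧
      (IsClosedManifold 3 (MT h) ∧ ConnectedSpace (MT h) ∧ IsPolyhedron3 (MT h) ∧
        ∃ f : C(MT h, AddCircle (1 : ℝ)), ¬ f.Nullhomotopic) ∧
      (IsClosedManifold 3 (MT (h ^ 2)) ∧ ConnectedSpace (MT (h ^ 2)) ∧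
        IsPolyhedron3 (MT (h ^ 2)) ∧
        ∃ f : C(MT (h ^ 2), AddCircle (1 : ℝ)), ¬ f.Nullhomotopic) ∧
      Nonempty (MT h × MT h ≃ₜ MT (h ^ 2) × MT (h ^ 2)) ∧
      ¬ Nonempty (ContinuousMap.HomotopyEquiv (MT h) (MT (h ^ 2))) ∧
      ¬ Nonempty (MT h ≃ₜ MT (h ^ 2)) := by
  obtain ⟨F, hF, h, h1, h2, h3, h4, h5, h6, h7, h8, h9, h10, h11, h12, h13⟩ := main.2
  exact ⟨F, hF, h, h1, h2, h3, ⟨h4, h5, h6, h10⟩, ⟨h7, h8, h9, h11⟩, h12, h13,
    fun ⟨e⟩ => h13 ⟨e.toHomotopyEquiv⟩⟩

end Pool.Agent.Results.MP_2cc909_gt.SquareRoots
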